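import Pool.Agent.Run7.h197.FMS.Loc
import Pool.Agent.Run7.h197.FMS.MS

/-!
Finiteness of the parameters of a one-parameter family satisfying the local conditions.
-/

set_option autoImplicit false

open IsDedekindDomain NumberField Polynomial

namespace Run7.h197.FMS

open Pool.Agent.Y673.Loc Pool.Agent.Y673.Loc.ZV Pool.Agent.K4H56.IF

variable {K : Type} [Field K] [NumberField K]

/-- Schinzel-Tijdeman with multiplicities -/
theorem st_mul (S : Set (HeightOneSpectrum (𝓞 K))) (hS : S.Finite) (N : ℕ) (hN : N ≠ 0)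
    {β β' : K} (hβ : β ≠ β') (D : ℕ) (hD : D ≠ 0) :
    ∃ P : ℕ, {x : K | IntN N x ∧ x ≠ β ∧ x ≠ β' ∧ ∃ p : ℕ, P ≤ p ∧ ∀ v ∉ S,
      (p : ℤ) ∣ (D : ℤ) * (adv K v).v (x - β) ∧
      (p : ℤ) ∣ (D : ℤ) * (adv K v).v (x - β')}.Finite := by
  obtain ⟨n₀, h⟩ := Run7.h197.ST.stS S hS N hN hβ
  refine ⟨n₀ * D, h.subset ?_⟩
  rintro x ⟨hx, h1, h2, p, hp, hv⟩
  have hg0 : 0 < Nat.gcd p D := Nat.gcd_pos_of_pos_right _ (Nat.pos_of_ne_zero hD)
  have hcop : Nat.Coprime (p / Nat.gcd p D) (D / Nat.gcd p D) := Nat.coprime_div_gcd_div_gcd hg0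
  have key : ∀ y : ℤ, (p : ℤ) ∣ (D : ℤ) * y → ((p / Nat.gcd p D : ℕ) : ℤ) ∣ y := by
    intro y hy
    rw [Int.natCast_dvd] at hy ⊢
    rw [Int.natAbs_mul, Int.natAbs_natCast] at hy
    have h8 : Nat.gcd p D ∣ p := Nat.gcd_dvd_left _ _
    have h9 : Nat.gcd p D ∣ D := Nat.gcd_dvd_right _ _
    apply hcop.dvd_of_dvd_mul_left
    have h10 : D / Nat.gcd p D * y.natAbs = D * y.natAbs / Nat.gcd p D := by
      rw [Nat.div_mul_right_comm h9]
    rw [h10]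
    exact Nat.div_dvd_div h8 hy
  refine ⟨hx, h1, h2, p / Nat.gcd p D, ?_, fun v hvS => ⟨key _ (hv v hvS).1, key _ (hv v hvS).2⟩⟩
  rw [Nat.le_div_iff_mul_le hg0]
  have h3 : Nat.gcd p D ≤ D := Nat.gcd_le_right _ (Nat.pos_of_ne_zero hD)
  exact (Nat.mul_le_mul_left _ h3).trans hp

/-- a finite union of statements about all large numbers -/
theorem uniform {α β : Type} (T : Finset β) (A : β → ℕ → α → Prop)
    (hmono : ∀ b P P' x, P ≤ P' → A b P' x → A b P x)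
    (h : ∀ b ∈ T, ∃ P, {x | A b P x}.Finite) : ∃ P, {x | ∃ b ∈ T, A b P x}.Finite := by
  choose! P hP using h
  refine ⟨T.sup P, ((Set.Finite.biUnion T.finite_toSet fun b hb => hP b hb)).subset ?_⟩
  rintro x ⟨b, hb, hx⟩
  exact Set.mem_biUnion (x := b) hb (hmono b _ _ x (Finset.le_sup hb) hx)

/-- a cube near a pole -/
theorem cube (S : Set (HeightOneSpectrum (𝓞 K))) (hS : S.Finite) (N : ℕ) (hN : N ≠ 0)
    {ρ π : K} (hρπ : ρ ≠ π) (D : ℕ) (hD : D ≠ 0) :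
    ∃ P : ℕ, {t : K | IntN N t ∧ t ≠ ρ ∧ t ≠ π ∧ (∀ v ∉ S, (3 : ℤ) ∣ (adv K v).v (t - ρ)) ∧
      ∃ p : ℕ, P ≤ p ∧ ∀ v ∉ S, (p : ℤ) ∣ (D : ℤ) * (adv K v).v (t - π)}.Finite := by
  classical
  obtain ⟨T, hT0, hT⟩ := Pool.Agent.K4H56.IF.sel (K := K) (n := 3) (by norm_num) S hS
  obtain ⟨c, hc0, hc⟩ := exists_nat S hS
  have hZ : ∀ b ∈ T, ∃ P : ℕ, {t : K | IntN N t ∧ t ≠ π ∧ (∃ y : K, t - ρ = b * y ^ 3) ∧
      ∃ p : ℕ, P ≤ p ∧ ∀ v ∉ S, (p : ℤ) ∣ (D : ℤ) * (adv K v).v (t - π)}.Finite := by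
    intro b hb
    obtain ⟨L, _, _, _, hL⟩ := Pool.Agent.K4H56.IF.exists_ext (M := K)
      {X ^ 3 - C b, X ^ 3 - C (π - ρ), X ^ 2 + X + 1} (by
        intro P hP
        simp only [Finset.mem_insert, Finset.mem_singleton] at hP
        rcases hP with rfl | rfl | rfl
        · rw [natDegree_X_pow_sub_C]; norm_num
        · rw [natDegree_X_pow_sub_C]; norm_num
        · have : (X ^ 2 + X + 1 : K[X]).natDegree = 2 := by compute_degree!
          rw [this]; norm_num)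
    obtain ⟨ζ, hζ⟩ := hL (X ^ 2 + X + 1) (by simp)
    have hζ' : ζ ^ 2 + ζ + 1 = 0 := by simpa using hζ
    obtain ⟨s, hs⟩ := hL (X ^ 3 - C b) (by simp)
    obtain ⟨γ, hγ⟩ := hL (X ^ 3 - C (π - ρ)) (by simp)
    rw [map_sub, map_pow, aeval_X, aeval_C, sub_eq_zero] at hs hγ
    rw [map_sub] at hγ
    have hinj := (algebraMap K L).injective
    obtain ⟨φ, hφ⟩ : ∃ φ : K →+* L, φ = algebraMap K L := ⟨_, rfl⟩
    rw [← hφ] at hs hγ hinj
    obtain ⟨Nb, hNb0, hNb⟩ := exists_IntN (φ ρ)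
    have hN'0 : N * Nb ≠ 0 := mul_ne_zero hN hNb0
    have hN'L : ((N * Nb : ℕ) : L) ≠ 0 := Nat.cast_ne_zero.2 hN'0
    have hcL : ((c : ℕ) : L) ≠ 0 := Nat.cast_ne_zero.2 hc0
    have hζ3 : ζ ^ 3 = 1 := by linear_combination (ζ - 1) * hζ'
    have hζ0 : ζ ≠ 0 := by
      rintro rfl
      norm_num at hζ'
    have hζ1 : ζ - 1 ≠ 0 := by
      intro h
      have h1 : ζ = 1 := sub_eq_zero.1 h
      rw [h1] at hζ'
      norm_num at hζ'
    have hγ0 : γ ≠ 0 := by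
      rintro rfl
      rw [zero_pow (by norm_num)] at hγ
      exact hρπ (hinj (sub_eq_zero.1 hγ.symm)).symm
    have hd1 : γ ≠ ζ * γ := by
      intro h
      have h1 : (ζ - 1) * γ = 0 := by linear_combination -h
      exact mul_ne_zero hζ1 hγ0 h1
    set S' : Set (HeightOneSpectrum (𝓞 L)) := {v | (adv L v).v ((N * Nb : ℕ) : L) ≠ 0} ∪
      {v | (adv L v).v γ ≠ 0} ∪ {v | (adv L v).v (ζ - 1) ≠ 0} ∪
      {v | (adv L v).v (c : L) ≠ 0} with hS'
    have hS'f : S'.Finite :=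
      (((Pool.Agent.K4H56.IF.supp_finite hN'L).union
        (Pool.Agent.K4H56.IF.supp_finite hγ0)).union
        (Pool.Agent.K4H56.IF.supp_finite hζ1)).union (Pool.Agent.K4H56.IF.supp_finite hcL)
    obtain ⟨P, hfin⟩ := st_mul (K := L) S' hS'f (N * Nb) hN'0 hd1 D hD
    refine ⟨P, ((hfin.image fun z : L => φ ρ + z ^ 3).preimage (f := φ) hinj.injOn).subset ?_⟩
    rintro t ⟨ht, htπ, ⟨y, hy⟩, p, hp, hv⟩
    obtain ⟨z, hz⟩ : ∃ z, z = s * φ y := ⟨_, rfl⟩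
    have ez : φ t - φ ρ = z ^ 3 := by
      rw [hz, mul_pow, hs, ← map_sub, hy, map_mul, map_pow]
    have eπ : φ t - φ π = (z - γ) * ((z - ζ * γ) * (z - ζ ^ 2 * γ)) := by
      linear_combination ez + hγ + z ^ 2 * γ * hζ' - z * γ ^ 2 * ζ * hζ' + γ ^ 3 * hζ3
    have hπ0 : φ t - φ π ≠ 0 := fun h0 => htπ (hinj (sub_eq_zero.1 h0))
    have hne : z - γ ≠ 0 ∧ z - ζ * γ ≠ 0 ∧ z - ζ ^ 2 * γ ≠ 0 := by
      rw [eπ] at hπ0
      exact ⟨left_ne_zero_of_mul hπ0, left_ne_zero_of_mul (right_ne_zero_of_mul hπ0),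
        right_ne_zero_of_mul (right_ne_zero_of_mul hπ0)⟩
    have hzI : IntN (N * Nb) z := by
      refine IntN.root (n := 3) (by norm_num) ?_
      rw [← ez]
      exact ((ht.map φ).mono (Dvd.intro _ rfl)).sub (hNb.mono (Dvd.intro_left _ rfl))
    refine ⟨z, ⟨hzI, sub_ne_zero.1 hne.1, sub_ne_zero.1 hne.2.1, p, hp, fun w hw => ?_⟩, ?_⟩
    · simp only [hS', Set.mem_union, Set.mem_ofPred_eq, not_or, not_not] at hw
      obtain ⟨⟨⟨a1, a2⟩, a3⟩, a4⟩ := hw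
      obtain ⟨v, e, he, hve, hcv⟩ := below (K := K) w
      have hvS : v ∉ S := fun h => hc v h (hcv c a4)
      have hpt : (p : ℤ) ∣ (D : ℤ) * (adv L w).v (φ t - φ π) := by
        rw [← map_sub, hφ, hve]
        have := Dvd.dvd.mul_left (hv v hvS) e
        have e2 : e * ((D : ℤ) * (adv K v).v (t - π)) = D * (e * (adv K v).v (t - π)) := by ring
        rwa [e2] at this
      have hζE : (adv L w).E 0 ζ := by
        refine ⟨hζ0, ?_⟩
        have h1 := ((E_of_ne (w := adv L w) hζ0).pow 3).2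
        rw [hζ3, v_one] at h1
        push_cast at h1
        omega
      have hγE : (adv L w).E 0 γ := ⟨hγ0, a2⟩
      have hζ1E : (adv L w).E 0 (ζ - 1) := ⟨hζ1, a3⟩
      have zI : (adv L w).G 0 z := hzI.G0 hN'0 a1
      have d1 : (adv L w).E 0 (ζ * γ - γ) := by
        have := hζ1E.mul hγE
        have e2 : (ζ - 1) * γ = ζ * γ - γ := by ring
        rw [e2] at this
        exact this.cast (by norm_num)
      have d2 : (adv L w).E 0 (ζ ^ 2 * γ - ζ * γ) := by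
        have := (hζE.mul hζ1E).mul hγE
        have e2 : ζ * (ζ - 1) * γ = ζ ^ 2 * γ - ζ * γ := by ring
        rw [e2] at this
        exact this.cast (by norm_num)
      have d3 : (adv L w).E 0 (γ - ζ ^ 2 * γ) := by
        have := ((hζE.pow 2).mul hζ1E).mul hγE
        have e2 : ζ ^ 2 * (ζ - 1) * γ = γ - ζ ^ 2 * γ := by linear_combination γ * hζ3
        rw [e2] at this
        exact this.cast (by norm_num)
      have hζγ : (adv L w).G 0 (ζ * γ) := (hζE.mul hγE).mono (by norm_num)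
      have hζγ2 : (adv L w).G 0 (ζ ^ 2 * γ) := ((hζE.pow 2).mul hγE).mono (by norm_num)
      have n1 := (zI.sub (hγE.G)).resolve_left hne.1
      have n2 := (zI.sub hζγ).resolve_left hne.2.1
      have n3 := (zI.sub hζγ2).resolve_left hne.2.2
      have b12 := Pool.Agent.K4H56.IF.not_both (w := adv L w) (a := z - γ) (b := z - ζ * γ) d1
        (by ring)
      have b23 := Pool.Agent.K4H56.IF.not_both (w := adv L w) (a := z - ζ * γ)
        (b := z - ζ ^ 2 * γ) d2 (by ring)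
      have b31 := Pool.Agent.K4H56.IF.not_both (w := adv L w) (a := z - ζ ^ 2 * γ)
        (b := z - γ) d3 (by ring)
      have hsum : (adv L w).v (φ t - φ π) = (adv L w).v (z - γ) +
          ((adv L w).v (z - ζ * γ) + (adv L w).v (z - ζ ^ 2 * γ)) := by
        rw [eπ, (adv L w).mul' _ _ hne.1 (mul_ne_zero hne.2.1 hne.2.2),
          (adv L w).mul' _ _ hne.2.1 hne.2.2]
      constructor
      · by_cases hz0 : (adv L w).v (z - γ) = 0
        · rw [hz0, mul_zero]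
          exact dvd_zero _
        · have : (adv L w).v (φ t - φ π) = (adv L w).v (z - γ) := by omega
          rwa [this] at hpt
      · by_cases hz0 : (adv L w).v (z - ζ * γ) = 0
        · rw [hz0, mul_zero]
          exact dvd_zero _
        · have : (adv L w).v (φ t - φ π) = (adv L w).v (z - ζ * γ) := by omega
          rwa [this] at hpt
    · show φ ρ + z ^ 3 = φ t
      rw [← ez]
      ring
  obtain ⟨P, hfin⟩ := uniform T (fun b P t => IntN N t ∧ t ≠ π ∧ (∃ y : K, t - ρ = b * y ^ 3) ∧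
      ∃ p : ℕ, P ≤ p ∧ ∀ v ∉ S, (p : ℤ) ∣ (D : ℤ) * (adv K v).v (t - π)) (by
    rintro b P P' x hPP ⟨g1, g2, g3, p, g4, g5⟩
    exact ⟨g1, g2, g3, p, hPP.trans g4, g5⟩) hZ
  refine ⟨P, hfin.subset ?_⟩
  rintro t ⟨ht, htρ, htπ, h3, hp⟩
  obtain ⟨b, hb, y, -, hy⟩ := hT (t - ρ) (sub_ne_zero.2 htρ) h3
  exact ⟨b, hb, ht, htπ, ⟨y, hy⟩, hp⟩

/-- a square near a pole -/
theorem square (S : Set (HeightOneSpectrum (𝓞 K))) (hS : S.Finite) (N : ℕ) (hN : N ≠ 0)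
    {ρ π : K} (hρπ : ρ ≠ π) (D : ℕ) (hD : D ≠ 0) :
    ∃ P : ℕ, {t : K | IntN N t ∧ t ≠ ρ ∧ t ≠ π ∧ (∀ v ∉ S, (2 : ℤ) ∣ (adv K v).v (t - ρ)) ∧
      ∃ p : ℕ, P ≤ p ∧ ∀ v ∉ S, (p : ℤ) ∣ (D : ℤ) * (adv K v).v (t - π)}.Finite := by
  classical
  obtain ⟨T, hT0, hT⟩ := Pool.Agent.K4H56.IF.sel (K := K) (n := 2) (by norm_num) S hS
  obtain ⟨c, hc0, hc⟩ := exists_nat S hS
  have hZ : ∀ b ∈ T, ∃ P : ℕ, {t : K | IntN N t ∧ t ≠ π ∧ (∃ y : K, t - ρ = b * y ^ 2) ∧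
      ∃ p : ℕ, P ≤ p ∧ ∀ v ∉ S, (p : ℤ) ∣ (D : ℤ) * (adv K v).v (t - π)}.Finite := by
    intro b hb
    obtain ⟨L, _, _, _, hL⟩ := Pool.Agent.K4H56.IF.exists_ext (M := K)
      {X ^ 2 - C b, X ^ 2 - C (π - ρ)} (by
        intro P hP
        simp only [Finset.mem_insert, Finset.mem_singleton] at hP
        rcases hP with rfl | rfl
        · rw [natDegree_X_pow_sub_C]; norm_num
        · rw [natDegree_X_pow_sub_C]; norm_num)
    obtain ⟨s, hs⟩ := hL (X ^ 2 - C b) (by simp)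
    obtain ⟨γ, hγ⟩ := hL (X ^ 2 - C (π - ρ)) (by simp)
    rw [map_sub, map_pow, aeval_X, aeval_C, sub_eq_zero] at hs hγ
    rw [map_sub] at hγ
    have hinj := (algebraMap K L).injective
    obtain ⟨φ, hφ⟩ : ∃ φ : K →+* L, φ = algebraMap K L := ⟨_, rfl⟩
    rw [← hφ] at hs hγ hinj
    obtain ⟨Nb, hNb0, hNb⟩ := exists_IntN (φ ρ)
    have hN'0 : N * Nb ≠ 0 := mul_ne_zero hN hNb0
    have hN'L : ((N * Nb : ℕ) : L) ≠ 0 := Nat.cast_ne_zero.2 hN'0
    have hcL : ((c : ℕ) : L) ≠ 0 := Nat.cast_ne_zero.2 hc0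
    have hγ0 : γ ≠ 0 := by
      rintro rfl
      rw [zero_pow (by norm_num)] at hγ
      exact hρπ (hinj (sub_eq_zero.1 hγ.symm)).symm
    have h20 : (2 : L) * γ ≠ 0 := mul_ne_zero two_ne_zero hγ0
    have hd1 : γ ≠ -γ := by
      intro h
      apply h20
      linear_combination h
    set S' : Set (HeightOneSpectrum (𝓞 L)) := {v | (adv L v).v ((N * Nb : ℕ) : L) ≠ 0} ∪
      {v | (adv L v).v γ ≠ 0} ∪ {v | (adv L v).v (2 * γ) ≠ 0} ∪
      {v | (adv L v).v (c : L) ≠ 0} with hS'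
    have hS'f : S'.Finite :=
      (((Pool.Agent.K4H56.IF.supp_finite hN'L).union
        (Pool.Agent.K4H56.IF.supp_finite hγ0)).union
        (Pool.Agent.K4H56.IF.supp_finite h20)).union (Pool.Agent.K4H56.IF.supp_finite hcL)
    obtain ⟨P, hfin⟩ := st_mul (K := L) S' hS'f (N * Nb) hN'0 hd1 D hD
    refine ⟨P, ((hfin.image fun z : L => φ ρ + z ^ 2).preimage (f := φ) hinj.injOn).subset ?_⟩
    rintro t ⟨ht, htπ, ⟨y, hy⟩, p, hp, hv⟩
    obtain ⟨z, hz⟩ : ∃ z, z = s * φ y := ⟨_, rfl⟩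
    have ez : φ t - φ ρ = z ^ 2 := by
      rw [hz, mul_pow, hs, ← map_sub, hy, map_mul, map_pow]
    have eπ : φ t - φ π = (z - γ) * (z - -γ) := by
      linear_combination ez + hγ
    have hπ0 : φ t - φ π ≠ 0 := fun h0 => htπ (hinj (sub_eq_zero.1 h0))
    have hne : z - γ ≠ 0 ∧ z - -γ ≠ 0 := by
      rw [eπ] at hπ0
      exact ⟨left_ne_zero_of_mul hπ0, right_ne_zero_of_mul hπ0⟩
    have hzI : IntN (N * Nb) z := by
      refine IntN.root (n := 2) (by norm_num) ?_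
      rw [← ez]
      exact ((ht.map φ).mono (Dvd.intro _ rfl)).sub (hNb.mono (Dvd.intro_left _ rfl))
    refine ⟨z, ⟨hzI, sub_ne_zero.1 hne.1, sub_ne_zero.1 hne.2, p, hp, fun w hw => ?_⟩, ?_⟩
    · simp only [hS', Set.mem_union, Set.mem_ofPred_eq, not_or, not_not] at hw
      obtain ⟨⟨⟨a1, a2⟩, a3⟩, a4⟩ := hw
      obtain ⟨v, e, he, hve, hcv⟩ := below (K := K) w
      have hvS : v ∉ S := fun h => hc v h (hcv c a4)
      have hpt : (p : ℤ) ∣ (D : ℤ) * (adv L w).v (φ t - φ π) := by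
        rw [← map_sub, hφ, hve]
        have := Dvd.dvd.mul_left (hv v hvS) e
        have e2 : e * ((D : ℤ) * (adv K v).v (t - π)) = D * (e * (adv K v).v (t - π)) := by ring
        rwa [e2] at this
      have hγE : (adv L w).E 0 γ := ⟨hγ0, a2⟩
      have d1 : (adv L w).E 0 (2 * γ) := ⟨h20, a3⟩
      have zI : (adv L w).G 0 z := hzI.G0 hN'0 a1
      have n1 := (zI.sub (hγE.G)).resolve_left hne.1
      have n2 := (zI.sub (hγE.neg.G)).resolve_left hne.2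
      have b21 := Pool.Agent.K4H56.IF.not_both (w := adv L w) (a := z - -γ) (b := z - γ) d1
        (by ring)
      have hsum : (adv L w).v (φ t - φ π) = (adv L w).v (z - γ) + (adv L w).v (z - -γ) := by
        rw [eπ, (adv L w).mul' _ _ hne.1 hne.2]
      constructor
      · by_cases hz0 : (adv L w).v (z - γ) = 0
        · rw [hz0, mul_zero]
          exact dvd_zero _
        · have : (adv L w).v (φ t - φ π) = (adv L w).v (z - γ) := by omega
          rwa [this] at hpt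
      · by_cases hz0 : (adv L w).v (z - -γ) = 0
        · rw [hz0, mul_zero]
          exact dvd_zero _
        · have : (adv L w).v (φ t - φ π) = (adv L w).v (z - -γ) := by omega
          rwa [this] at hpt
    · show φ ρ + z ^ 2 = φ t
      rw [← ez]
      ring
  obtain ⟨P, hfin⟩ := uniform T (fun b P t => IntN N t ∧ t ≠ π ∧ (∃ y : K, t - ρ = b * y ^ 2) ∧
      ∃ p : ℕ, P ≤ p ∧ ∀ v ∉ S, (p : ℤ) ∣ (D : ℤ) * (adv K v).v (t - π)) (by
    rintro b P P' x hPP ⟨g1, g2, g3, p, g4, g5⟩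
    exact ⟨g1, g2, g3, p, hPP.trans g4, g5⟩) hZ
  refine ⟨P, hfin.subset ?_⟩
  rintro t ⟨ht, htρ, htπ, h3, hp⟩
  obtain ⟨b, hb, y, -, hy⟩ := hT (t - ρ) (sub_ne_zero.2 htρ) h3
  exact ⟨b, hb, ht, htπ, ⟨y, hy⟩, hp⟩

end Run7.h197.FMS
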