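import Pool.Agent.Run7.h197.FMS.Cases

/-!
Congruences between a fixed elliptic curve and the members of a one-parameter family with integral
parameter.
-/

set_option autoImplicit false

open IsDedekindDomain NumberField Polynomial

namespace Run7.h197.FMS

open Pool.Agent.Y673.Loc Pool.Agent.Y673.Loc.ZV Pool.Agent.K4H56.IF

variable {K : Type} [Field K] [NumberField K]

theorem coprime_eval {F G : K[X]} (hcop : IsCoprime F G) {x : K} (h : F.eval x = 0) :
    G.eval x ≠ 0 := by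
  intro h0
  obtain ⟨a, b, hab⟩ := hcop
  have := congrArg (Polynomial.eval x) hab
  rw [eval_add, eval_mul, eval_mul, h, h0, mul_zero, mul_zero, add_zero, eval_one] at this
  exact zero_ne_one this

/-- the case in which all zeros and poles are rational -/
theorem main_split (F G : K[X]) (hcop : IsCoprime F G)
    (hnc : F.natDegree ≠ 0 ∨ G.natDegree ≠ 0) (hF : F.Splits) (hG : G.Splits)
    (hH : (F - C 1728 * G).Splits) (N : ℕ) (hN : N ≠ 0) (c₀ : ℕ) (hc₀ : c₀ ≠ 0) :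
    ∃ P : ℕ, {t : K | IntN N t ∧ G.eval t ≠ 0 ∧ ∃ p : ℕ, P ≤ p ∧
      Cond K c₀ p (F.eval t / G.eval t)}.Finite := by
  classical
  obtain ⟨hF0, hG0, hH0, D, hD, -, hms⟩ := mason hcop hnc hF hG hH
  have hGr : ∀ π ∈ G.roots.toFinset, G.eval π = 0 := fun π hπ =>
    (mem_roots hG0).1 (Multiset.mem_toFinset.1 hπ)
  have hFr : ∀ ρ ∈ F.roots.toFinset.filter (fun r => ¬ 3 ∣ F.rootMultiplicity r),
      F.eval ρ = 0 ∧ G.eval ρ ≠ 0 ∧ ¬ 3 ∣ F.rootMultiplicity ρ := by
    intro ρ hρ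
    rw [Finset.mem_filter] at hρ
    have h1 : F.eval ρ = 0 := (mem_roots hF0).1 (Multiset.mem_toFinset.1 hρ.1)
    exact ⟨h1, coprime_eval hcop h1, hρ.2⟩
  have hHr : ∀ σ ∈ (F - C 1728 * G).roots.toFinset.filter (fun r =>
      ¬ 2 ∣ (F - C 1728 * G).rootMultiplicity r),
      F.eval σ ≠ 0 ∧ G.eval σ ≠ 0 ∧ ¬ 2 ∣ (F - C 1728 * G).rootMultiplicity σ := by
    intro σ hσ
    rw [Finset.mem_filter] at hσ
    have h1 : (F - C 1728 * G).eval σ = 0 :=
      (mem_roots hH0).1 (Multiset.mem_toFinset.1 hσ.1)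
    rw [eval_sub, eval_mul, eval_C] at h1
    have h2 : F.eval σ ≠ 0 := by
      intro h0
      have h3 := coprime_eval hcop h0
      rw [h0, zero_sub, neg_eq_zero] at h1
      rcases mul_eq_zero.1 h1 with h4 | h4
      · norm_num at h4
      · exact h3 h4
    refine ⟨h2, ?_, hσ.2⟩
    intro h0
    rw [h0, mul_zero, sub_zero] at h1
    exact h2 h1
  have hmπ : ∀ π, G.eval π = 0 → G.rootMultiplicity π ≠ 0 := fun π hπ =>
    ((rootMultiplicity_pos hG0).2 hπ).ne'
  rcases Nat.lt_or_ge 1 G.roots.toFinset.card with h2 | h1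
  · -- two poles
    obtain ⟨π, hπ, π', hπ', hne⟩ := Finset.one_lt_card.1 h2
    have g := hGr π hπ
    have g' := hGr π' hπ'
    obtain ⟨S₁, f₁, h₁⟩ := pole_dvd F G hG0 hcop g N hN c₀ hc₀
    obtain ⟨S₂, f₂, h₂⟩ := pole_dvd F G hG0 hcop g' N hN c₀ hc₀
    obtain ⟨P, hfin⟩ := st_mul (S₁ ∪ S₂) (f₁.union f₂) N hN hne
      (G.rootMultiplicity π * G.rootMultiplicity π') (mul_ne_zero (hmπ π g) (hmπ π' g'))
    refine ⟨P, hfin.subset ?_⟩
    rintro t ⟨ht, hGt, p, hp, hc⟩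
    have e1 : t ≠ π := fun h => hGt (by rw [h]; exact g)
    have e2 : t ≠ π' := fun h => hGt (by rw [h]; exact g')
    refine ⟨ht, e1, e2, p, hp, fun v hv => ?_⟩
    rw [Set.mem_union, not_or] at hv
    have d1 := Dvd.dvd.mul_left (h₁ v hv.1 t ht e1 p hc) (G.rootMultiplicity π' : ℤ)
    have d2 := Dvd.dvd.mul_left (h₂ v hv.2 t ht e2 p hc) (G.rootMultiplicity π : ℤ)
    constructor
    · have e : (((G.rootMultiplicity π * G.rootMultiplicity π' : ℕ)) : ℤ) *
        (adv K v).v (t - π) = (G.rootMultiplicity π' : ℤ) *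
        ((G.rootMultiplicity π : ℤ) * (adv K v).v (t - π)) := by push_cast; ring
      rw [e]
      exact d1
    · have e : (((G.rootMultiplicity π * G.rootMultiplicity π' : ℕ)) : ℤ) *
        (adv K v).v (t - π') = (G.rootMultiplicity π : ℤ) *
        ((G.rootMultiplicity π' : ℤ) * (adv K v).v (t - π')) := by push_cast; ring
      rw [e]
      exact d2
  rcases Nat.eq_zero_or_pos G.roots.toFinset.card with h0 | h0
  · -- no poles
    rw [h0, mul_zero, zero_add] at hms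
    refine ⟨0, ?_⟩
    rcases Nat.lt_or_ge 1 (F.roots.toFinset.filter
      (fun r => ¬ 3 ∣ F.rootMultiplicity r)).card with h3 | h3
    · obtain ⟨ρ, hρ, ρ', hρ', hne⟩ := Finset.one_lt_card.1 h3
      obtain ⟨-, g1, g2⟩ := hFr ρ hρ
      obtain ⟨-, g3, g4⟩ := hFr ρ' hρ'
      obtain ⟨S₁, f₁, h₁⟩ := zero_dvd F G hF0 g1 g2 N hN c₀ hc₀
      obtain ⟨S₂, f₂, h₂⟩ := zero_dvd F G hF0 g3 g4 N hN c₀ hc₀
      have hfin := Pool.Agent.K4H56.IF.fin33 (S₁ ∪ S₂) (f₁.union f₂) hN hne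
      refine ((Set.toFinite {ρ, ρ'}).union hfin).subset ?_
      rintro t ⟨ht, hGt, p, -, hc⟩
      by_cases e1 : t = ρ
      · left; rw [e1]; simp
      by_cases e2 : t = ρ'
      · left; rw [e2]; simp
      right
      refine ⟨ht, fun v hv => ?_⟩
      rw [Set.mem_union, not_or] at hv
      exact ⟨h₁ v hv.1 t ht e1 p hc, h₂ v hv.2 t ht e2 p hc⟩
    rcases Nat.eq_zero_or_pos (F.roots.toFinset.filter
      (fun r => ¬ 3 ∣ F.rootMultiplicity r)).card with h4 | h4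
    · have h5 : 2 < ((F - C 1728 * G).roots.toFinset.filter (fun r =>
        ¬ 2 ∣ (F - C 1728 * G).rootMultiplicity r)).card := by omega
      obtain ⟨a, b, c, ha, hb, hc, hab, hac, hbc⟩ := Finset.two_lt_card_iff.1 h5
      obtain ⟨-, a1, a2⟩ := hHr a ha
      obtain ⟨-, b1, b2⟩ := hHr b hb
      obtain ⟨-, c1, c2⟩ := hHr c hc
      obtain ⟨S₁, f₁, h₁⟩ := two_dvd F G hH0 a1 a2 N hN c₀ hc₀
      obtain ⟨S₂, f₂, h₂⟩ := two_dvd F G hH0 b1 b2 N hN c₀ hc₀
      obtain ⟨S₃, f₃, h₃⟩ := two_dvd F G hH0 c1 c2 N hN c₀ hc₀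
      have hfin := Pool.Agent.K4H56.IF.fin222 (S₁ ∪ S₂ ∪ S₃) ((f₁.union f₂).union f₃) hN
        hab hac hbc
      refine ((Set.toFinite {a, b, c}).union hfin).subset ?_
      rintro t ⟨ht, hGt, p, -, hcd⟩
      by_cases e1 : t = a
      · left; rw [e1]; simp
      by_cases e2 : t = b
      · left; rw [e2]; simp
      by_cases e3 : t = c
      · left; rw [e3]; simp
      right
      refine ⟨ht, fun v hv => ?_⟩
      simp only [Set.mem_union, not_or] at hv
      exact ⟨h₁ v hv.1.1 t ht e1 hGt p hcd, h₂ v hv.1.2 t ht e2 hGt p hcd,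
        h₃ v hv.2 t ht e3 hGt p hcd⟩
    · have h5 : 0 < ((F - C 1728 * G).roots.toFinset.filter (fun r =>
        ¬ 2 ∣ (F - C 1728 * G).rootMultiplicity r)).card := by omega
      obtain ⟨ρ, hρ⟩ := Finset.card_pos.1 h4
      obtain ⟨σ, hσ⟩ := Finset.card_pos.1 h5
      obtain ⟨g0, g1, g2⟩ := hFr ρ hρ
      obtain ⟨k0, k1, k2⟩ := hHr σ hσ
      have hne : ρ ≠ σ := fun h => k0 (by rw [← h]; exact g0)
      obtain ⟨S₁, f₁, h₁⟩ := zero_dvd F G hF0 g1 g2 N hN c₀ hc₀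
      obtain ⟨S₂, f₂, h₂⟩ := two_dvd F G hH0 k1 k2 N hN c₀ hc₀
      have hfin := Pool.Agent.K4H56.IF.fin32 (S₁ ∪ S₂) (f₁.union f₂) hN hne
      refine ((Set.toFinite {ρ, σ}).union hfin).subset ?_
      rintro t ⟨ht, hGt, p, -, hc⟩
      by_cases e1 : t = ρ
      · left; rw [e1]; simp
      by_cases e2 : t = σ
      · left; rw [e2]; simp
      right
      refine ⟨ht, fun v hv => ?_⟩
      rw [Set.mem_union, not_or] at hv
      exact ⟨h₁ v hv.1 t ht e1 p hc, h₂ v hv.2 t ht e2 hGt p hc⟩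
  · -- one pole
    obtain ⟨π, hπ⟩ := Finset.card_pos.1 h0
    have g := hGr π hπ
    obtain ⟨S₁, f₁, h₁⟩ := pole_dvd F G hG0 hcop g N hN c₀ hc₀
    rcases Nat.eq_zero_or_pos (F.roots.toFinset.filter
      (fun r => ¬ 3 ∣ F.rootMultiplicity r)).card with h4 | h4
    · have h5 : 0 < ((F - C 1728 * G).roots.toFinset.filter (fun r =>
        ¬ 2 ∣ (F - C 1728 * G).rootMultiplicity r)).card := by omega
      obtain ⟨σ, hσ⟩ := Finset.card_pos.1 h5
      obtain ⟨k0, k1, k2⟩ := hHr σ hσ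
      have hne : σ ≠ π := fun h => k1 (by rw [h]; exact g)
      obtain ⟨S₂, f₂, h₂⟩ := two_dvd F G hH0 k1 k2 N hN c₀ hc₀
      obtain ⟨P, hfin⟩ := square (S₁ ∪ S₂) (f₁.union f₂) N hN hne (G.rootMultiplicity π)
        (hmπ π g)
      refine ⟨P, ((Set.finite_singleton σ).union hfin).subset ?_⟩
      rintro t ⟨ht, hGt, p, hp, hc⟩
      by_cases e1 : t = σ
      · left; rw [e1]; simp
      right
      have e2 : t ≠ π := fun h => hGt (by rw [h]; exact g)
      refine ⟨ht, e1, e2, fun v hv => ?_, p, hp, fun v hv => ?_⟩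
      · rw [Set.mem_union, not_or] at hv
        exact h₂ v hv.2 t ht e1 hGt p hc
      · rw [Set.mem_union, not_or] at hv
        exact h₁ v hv.1 t ht e2 p hc
    · obtain ⟨ρ, hρ⟩ := Finset.card_pos.1 h4
      obtain ⟨g0, g1, g2⟩ := hFr ρ hρ
      have hne : ρ ≠ π := fun h => g1 (by rw [h]; exact g)
      obtain ⟨S₂, f₂, h₂⟩ := zero_dvd F G hF0 g1 g2 N hN c₀ hc₀
      obtain ⟨P, hfin⟩ := cube (S₁ ∪ S₂) (f₁.union f₂) N hN hne (G.rootMultiplicity π)
        (hmπ π g)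
      refine ⟨P, ((Set.finite_singleton ρ).union hfin).subset ?_⟩
      rintro t ⟨ht, hGt, p, hp, hc⟩
      by_cases e1 : t = ρ
      · left; rw [e1]; simp
      right
      have e2 : t ≠ π := fun h => hGt (by rw [h]; exact g)
      refine ⟨ht, e1, e2, fun v hv => ?_, p, hp, fun v hv => ?_⟩
      · rw [Set.mem_union, not_or] at hv
        exact h₂ v hv.2 t ht e1 p hc
      · rw [Set.mem_union, not_or] at hv
        exact h₁ v hv.1 t ht e2 p hc

/-- the general case -/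
theorem main (F G : K[X]) (hcop : IsCoprime F G)
    (hnc : F.natDegree ≠ 0 ∨ G.natDegree ≠ 0) (N : ℕ) (hN : N ≠ 0) (c₀ : ℕ) (hc₀ : c₀ ≠ 0) :
    ∃ P : ℕ, {t : K | IntN N t ∧ G.eval t ≠ 0 ∧ ∃ p : ℕ, P ≤ p ∧
      Cond K c₀ p (F.eval t / G.eval t)}.Finite := by
  classical
  obtain ⟨f, hf⟩ : ∃ f : K[X], f = F * (G * (F - C 1728 * G)) := ⟨_, rfl⟩
  have hne : f ≠ 0 := by
    have h1728 : (C (1728 : K)) ≠ 0 := C_ne_zero.2 (by norm_num)
    have u1728 : IsUnit (C (1728 : K)) := by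
      rw [isUnit_C]
      exact (by norm_num : (1728 : K) ≠ 0).isUnit
    have hF0 : F ≠ 0 := by
      rintro rfl
      rw [isCoprime_zero_left] at hcop
      rcases hnc with h | h
      · simp at h
      · exact h (natDegree_eq_zero_of_isUnit hcop)
    have hG0 : G ≠ 0 := by
      rintro rfl
      rw [isCoprime_zero_right] at hcop
      rcases hnc with h | h
      · exact h (natDegree_eq_zero_of_isUnit hcop)
      · simp at h
    have hH0 : F - C 1728 * G ≠ 0 := by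
      intro h0
      have h1 : F = C 1728 * G := sub_eq_zero.1 h0
      have h2 : IsUnit G := by
        rw [h1] at hcop
        have := hcop.of_mul_left_right
        rwa [isCoprime_self] at this
      have h3 := natDegree_eq_zero_of_isUnit h2
      rcases hnc with h | h
      · apply h
        rw [h1, natDegree_C_mul (by norm_num : (1728 : K) ≠ 0), h3]
      · exact h h3
    rw [hf]
    exact mul_ne_zero hF0 (mul_ne_zero hG0 hH0)
  have : NumberField (SplittingField f) := NumberField.of_module_finite K (SplittingField f)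
  obtain ⟨φ, hφ⟩ : ∃ φ : K →+* SplittingField f, φ = algebraMap K (SplittingField f) := ⟨_, rfl⟩
  have hs : (f.map φ).Splits := by rw [hφ]; exact SplittingField.splits f
  have hfm : f.map φ ≠ 0 := Polynomial.map_ne_zero hne
  have hsF : (F.map φ).Splits := by
    refine hs.of_dvd hfm (Polynomial.map_dvd _ ?_)
    rw [hf]
    exact ⟨G * (F - C 1728 * G), rfl⟩
  have hsG : (G.map φ).Splits := by
    refine hs.of_dvd hfm (Polynomial.map_dvd _ ?_)
    rw [hf]
    exact ⟨F * (F - C 1728 * G), by ring⟩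
  have hsH : (F.map φ - C 1728 * G.map φ).Splits := by
    have e : F.map φ - C 1728 * G.map φ = (F - C 1728 * G).map φ := by
      rw [Polynomial.map_sub, Polynomial.map_mul, Polynomial.map_C]
      congr 3
      exact (map_ofNat φ 1728).symm
    rw [e]
    refine hs.of_dvd hfm (Polynomial.map_dvd _ ?_)
    rw [hf]
    exact ⟨F * G, by ring⟩
  obtain ⟨P, hfin⟩ := main_split (F.map φ) (G.map φ) (hcop.map (mapRingHom φ))
    (by rwa [natDegree_map, natDegree_map]) hsF hsG hsH N hN c₀ hc₀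
  refine ⟨P, (hfin.preimage (f := φ) φ.injective.injOn).subset ?_⟩
  rintro t ⟨ht, hGt, p, hp, hc⟩
  have e1 : (G.map φ).eval (φ t) = φ (G.eval t) := eval_map_apply _ _
  have e2 : (F.map φ).eval (φ t) = φ (F.eval t) := eval_map_apply _ _
  refine ⟨ht.map φ, ?_, p, hp, ?_⟩
  · rw [e1]
    exact (map_ne_zero_iff _ φ.injective).2 hGt
  · rw [e1, e2, ← map_div₀]
    have := hc.ext (L := SplittingField f)
    rwa [← hφ] at this

open scoped Classical in
/-- **Uniform bound for congruences in a family with integral parameter.** -/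
theorem fm (A₀ B₀ : 𝓞 K) (h0 : 4 * A₀ ^ 3 + 27 * B₀ ^ 2 ≠ 0) (F G : K[X]) (hcop : IsCoprime F G)
    (hnc : F.natDegree ≠ 0 ∨ G.natDegree ≠ 0) (N : ℕ) (hN : N ≠ 0) :
    ∃ n₀ : ℕ, {t : K | IntN N t ∧ G.eval t ≠ 0 ∧ ∃ n : ℕ, n₀ ≤ n ∧
      ∃ A B : K, 4 * A ^ 3 + 27 * B ^ 2 ≠ 0 ∧ jv A B = F.eval t / G.eval t ∧
        ∃ f : EP A B → EP (A₀ : K) (B₀ : K), Pool.Agent.Y673.FM.Cong A B (A₀ : K) (B₀ : K) n f}.Finite := by
  classical
  -- large primes
  obtain ⟨P₁, hfin₁⟩ := main F G hcop hnc N hN (Pool.Agent.Y673.CB.badN K 1 A₀ B₀)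
    (Pool.Agent.Y673.CB.badN_pos one_pos h0).ne'
  -- powers of small primes
  obtain ⟨Q, hQ⟩ : ∃ Q, Q = P₁ + 17 := ⟨_, rfl⟩
  obtain ⟨P₂, hfin₂⟩ := main F G hcop hnc N hN (Pool.Agent.Y673.CB.badN K Q.factorial A₀ B₀)
    (Pool.Agent.Y673.CB.badN_pos (Nat.factorial_pos _) h0).ne'
  refine ⟨(60 * P₂ + 3) ^ Q + 1, (hfin₁.union hfin₂).subset ?_⟩
  rintro t ⟨ht, hGt, n, hn, A, B, hD, hj, f, hf⟩
  rcases Pool.Agent.Y673.CB.large_factor Q (60 * P₂ + 3) n (by omega) (by omega) with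
    ⟨p, hp, hNp, hpn⟩ | ⟨q, k, hq, hqN, hqn, hM⟩
  · left
    obtain ⟨p', hp', hc⟩ := cond_of_HE (Pool.Agent.Y673.CB.badN_pos one_pos h0).ne'
      (Pool.Agent.Y673.CB.six_badN _ _ _)
      (Pool.Agent.Y673.CB.HE_prime (P := P₁) one_pos h0 hD hp (by omega) (by omega)
        (Pool.Agent.Y673.CB.cong_dvd hf hpn))
    exact ⟨ht, hGt, p', hp', by rw [← hj]; exact hc⟩
  · right
    obtain ⟨p', hp', hc⟩ := cond_of_HE (Pool.Agent.Y673.CB.badN_pos (Nat.factorial_pos Q) h0).ne'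
      (Pool.Agent.Y673.CB.six_badN _ _ _)
      (Pool.Agent.Y673.CB.HE_tame (P := P₂) (Nat.factorial_pos Q) h0 hD hq
        (Nat.dvd_factorial hq.pos hqN.le) (by omega) (by omega)
        (Pool.Agent.Y673.CB.cong_dvd hf hqn))
    exact ⟨ht, hGt, p', hp', by rw [← hj]; exact hc⟩

end Run7.h197.FMS
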